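import Mathlib

set_option autoImplicit false

/-!
# Monotone selection of sublattices in Boolean algebras generated by chains

Every Boolean algebra generated by a chain has the monotone selection property.
-/

universe u

namespace Pool.Agent.Results.MP_9a43b6_co.ChainGenerated

/-- The relation `S ≤ S'` between sublattices of a lattice `T`: for all `x ∈ S` and `x' ∈ S'` one
has `x ⊓ x' ∈ S` and `x ⊔ x' ∈ S'`. -/
def SubLE {T : Type u} [Lattice T] (S S' : Sublattice T) : Prop :=
  ∀ x ∈ S, ∀ x' ∈ S', x ⊓ x' ∈ S ∧ x ⊔ x' ∈ S'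

/-- The monotone selection property of a lattice `T`: there is a map `φ` from the set of nonempty
sublattices of `T` to `T` with `φ S ≤ φ S'` whenever `S ≤ S'`, and `φ S ∈ S` for all `S`. -/
def MonotoneSelection (T : Type u) [Lattice T] : Prop :=
  ∃ φ : {S : Sublattice T // (S : Set T).Nonempty} → T,
    (∀ S S' : {S : Sublattice T // (S : Set T).Nonempty}, SubLE S.1 S'.1 → φ S ≤ φ S') ∧
    ∀ S : {S : Sublattice T // (S : Set T).Nonempty}, φ S ∈ S.1

/-! ### A general principle: submodular injections into well-ordered cancellative monoids -/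

theorem monotoneSelection_of_submodular {T : Type u} [Lattice T] {Γ : Type*} [AddCommMonoid Γ]
    [LinearOrder Γ] [IsOrderedCancelAddMonoid Γ] [WellFoundedLT Γ] (ψ : T → Γ)
    (hinj : Function.Injective ψ) (hsub : ∀ x y, ψ (x ⊓ y) + ψ (x ⊔ y) ≤ ψ x + ψ y) :
    MonotoneSelection T := by
  classical
  have hmin : ∀ S : {S : Sublattice T // (S : Set T).Nonempty},
      ∃ a ∈ S.1, ∀ b ∈ S.1, b ≠ a → ψ a < ψ b := by
    intro S
    obtain ⟨a, ha, hmin⟩ := WellFounded.has_min (InvImage.wf ψ (wellFounded_lt (α := Γ)))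
      (S.1 : Set T) S.2
    refine ⟨a, ha, fun b hb hne => ?_⟩
    rcases lt_trichotomy (ψ a) (ψ b) with h | h | h
    · exact h
    · exact absurd (hinj h).symm hne
    · exact absurd h (hmin b hb)
  choose φ hφ hlt using hmin
  refine ⟨φ, ?_, hφ⟩
  intro S S' hSS'
  by_contra hnot
  obtain ⟨h1, h2⟩ := hSS' _ (hφ S) _ (hφ S')
  have hne1 : φ S ⊓ φ S' ≠ φ S := fun h => hnot (inf_eq_left.1 h)
  have hne2 : φ S ⊔ φ S' ≠ φ S' := fun h => hnot (sup_eq_right.1 h)
  have l1 := hlt S _ h1 hne1
  have l2 := hlt S' _ h2 hne2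
  exact absurd (hsub (φ S) (φ S')) (not_le.2 (add_lt_add l1 l2))

/-! ### The values of an element of a chain-generated Boolean algebra at the cuts of the chain -/

section Cuts

variable {T : Type u} [BooleanAlgebra T]

/-- The value at the cut `(K \ U, U)` of the element `x` is one. -/
def Val (K U : Set T) (x : T) : Prop := ∃ u ∈ U, ∃ v ∈ insert ⊥ (K \ U), u \ v ≤ x

structure IsCut (K U : Set T) : Prop where
  chain : IsChain (· ≤ ·) K
  bot : ⊥ ∉ K
  sub : U ⊆ K
  up : ∀ c ∈ U, ∀ d ∈ K, c ≤ d → d ∈ U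

variable {K U : Set T}

theorem Val.mono {x y : T} (h : Val K U x) (hxy : x ≤ y) : Val K U y := by
  obtain ⟨u, hu, v, hv, h⟩ := h
  exact ⟨u, hu, v, hv, h.trans hxy⟩

theorem IsCut.inf_mem (hc : IsCut K U) {u u' : T} (hu : u ∈ U) (hu' : u' ∈ U) : u ⊓ u' ∈ U := by
  rcases hc.chain.total (hc.sub hu) (hc.sub hu') with h | h
  · rwa [inf_eq_left.2 h]
  · rwa [inf_eq_right.2 h]

theorem IsCut.sup_mem (hc : IsCut K U) {v v' : T} (hv : v ∈ insert ⊥ (K \ U))
    (hv' : v' ∈ insert ⊥ (K \ U)) : v ⊔ v' ∈ insert ⊥ (K \ U) := by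
  rcases hv with rfl | hv
  · simpa using hv'
  · rcases hv' with rfl | hv'
    · rw [sup_bot_eq]; exact Or.inr hv
    · rcases hc.chain.total hv.1 hv'.1 with h | h
      · rw [sup_eq_right.2 h]; exact Or.inr hv'
      · rw [sup_eq_left.2 h]; exact Or.inr hv

theorem IsCut.val_inf (hc : IsCut K U) {x y : T} :
    Val K U (x ⊓ y) ↔ Val K U x ∧ Val K U y := by
  constructor
  · intro h
    exact ⟨h.mono inf_le_left, h.mono inf_le_right⟩
  · rintro ⟨⟨u, hu, v, hv, h⟩, ⟨u', hu', v', hv', h'⟩⟩
    refine ⟨u ⊓ u', hc.inf_mem hu hu', v ⊔ v', hc.sup_mem hv hv', le_inf ?_ ?_⟩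
    · exact (sdiff_le_sdiff inf_le_left le_sup_left).trans h
    · exact (sdiff_le_sdiff inf_le_right le_sup_right).trans h'

theorem IsCut.not_val_bot (hc : IsCut K U) : ¬ Val K U ⊥ := by
  rintro ⟨u, hu, v, hv, h⟩
  have huv : u ≤ v := by rwa [le_bot_iff, sdiff_eq_bot_iff] at h
  rcases hv with rfl | hv
  · rw [le_bot_iff] at huv
    subst huv
    exact hc.bot (hc.sub hu)
  · exact hv.2 (hc.up u hu v hv.1 huv)

theorem IsCut.not_both (hc : IsCut K U) {x : T} (h : Val K U x) (h' : Val K U xᶜ) : False := by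
  have := hc.val_inf.2 ⟨h, h'⟩
  rw [inf_compl_eq_bot] at this
  exact hc.not_val_bot this

/-- The chain `K` attached to a generating chain `C`: add the top, remove the bottom. -/
def chainK (C : Set T) : Set T := insert ⊤ C \ {⊥}

theorem isChain_chainK {C : Set T} (hC : IsChain (· ≤ ·) C) : IsChain (· ≤ ·) (chainK C) :=
  (hC.insert (fun _ _ _ => Or.inr le_top)).mono Set.sdiff_subset

theorem bot_notMem_chainK (C : Set T) : ⊥ ∉ chainK C := fun h => h.2 rfl

/-- Ultrafilter property of the value at a nonempty cut. -/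
theorem IsCut.val_or {C : Set T} (hgen : BooleanSubalgebra.closure C = ⊤)
    (hc : IsCut (chainK C) U) (hne : U.Nonempty) (x : T) :
    Val (chainK C) U x ∨ Val (chainK C) U xᶜ := by
  obtain ⟨u, hu⟩ := hne
  have htop : Val (chainK C) U ⊤ := ⟨u, hu, ⊥, Or.inl rfl, le_top⟩
  have hx : x ∈ BooleanSubalgebra.closure C := by rw [hgen]; exact BooleanSubalgebra.mem_top
  induction hx using BooleanSubalgebra.closure_bot_sup_induction with
  | mem c hcC =>
    by_cases hb : c = ⊥
    · right
      rw [hb, compl_bot]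
      exact htop
    · have hcK : c ∈ chainK C := ⟨Or.inr hcC, hb⟩
      by_cases hcU : c ∈ U
      · left
        exact ⟨c, hcU, ⊥, Or.inl rfl, sdiff_le⟩
      · right
        refine ⟨u, hu, c, Or.inr ⟨hcK, hcU⟩, ?_⟩
        rw [sdiff_eq]
        exact inf_le_right
  | bot =>
    right
    rw [compl_bot]
    exact htop
  | sup x hx y hy ihx ihy =>
    rcases ihx with h | h
    · left; exact h.mono le_sup_left
    · rcases ihy with h' | h'
      · left; exact h'.mono le_sup_right
      · right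
        rw [compl_sup]
        exact hc.val_inf.2 ⟨h, h'⟩
  | compl x hx ih =>
    rcases ih with h | h
    · right; rwa [compl_compl]
    · left; exact h

theorem IsCut.val_sup {C : Set T} (hgen : BooleanSubalgebra.closure C = ⊤)
    (hc : IsCut (chainK C) U) {x y : T} :
    Val (chainK C) U (x ⊔ y) ↔ Val (chainK C) U x ∨ Val (chainK C) U y := by
  constructor
  · intro h
    have hne : U.Nonempty := by
      obtain ⟨u, hu, -⟩ := h
      exact ⟨u, hu⟩
    by_contra hcon
    push Not at hcon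
    have h1 := (hc.val_or hgen hne x).resolve_left hcon.1
    have h2 := (hc.val_or hgen hne y).resolve_left hcon.2
    have h3 := hc.val_inf.2 ⟨h1, h2⟩
    rw [← compl_sup] at h3
    exact hc.not_both h h3
  · rintro (h | h)
    · exact h.mono le_sup_left
    · exact h.mono le_sup_right

open scoped symmDiff

theorem IsCut.val_symmDiff {C : Set T} (hgen : BooleanSubalgebra.closure C = ⊤)
    (hc : IsCut (chainK C) U) {x y : T} :
    Val (chainK C) U (x ∆ y) ↔ ¬ (Val (chainK C) U x ↔ Val (chainK C) U y) := by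
  by_cases hne : U.Nonempty
  · have key : ∀ z, Val (chainK C) U zᶜ ↔ ¬ Val (chainK C) U z := fun z =>
      ⟨fun h h' => hc.not_both h' h, fun h => (hc.val_or hgen hne z).resolve_left h⟩
    rw [symmDiff_def, hc.val_sup hgen, sdiff_eq, sdiff_eq, hc.val_inf, hc.val_inf, key, key]
    tauto
  · have hno : ∀ z, ¬ Val (chainK C) U z := by
      rintro z ⟨u, hu, -⟩
      exact hne ⟨u, hu⟩
    simp [hno]

end Cuts

/-! ### Jumps -/

section Jumps

variable {T : Type u} [BooleanAlgebra T] {C : Set T}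

/-- The cut just below `e`. -/
def lowCut (C : Set T) (e : T) : Set T := {c | c ∈ chainK C ∧ e ≤ c}

/-- The cut just above `e`. -/
def highCut (C : Set T) (e : T) : Set T := {c | c ∈ chainK C ∧ e < c}

theorem isCut_lowCut (hC : IsChain (· ≤ ·) C) (e : T) : IsCut (chainK C) (lowCut C e) where
  chain := isChain_chainK hC
  bot := bot_notMem_chainK C
  sub := fun _ h => h.1
  up := fun _ hc _ hd hcd => ⟨hd, hc.2.trans hcd⟩

theorem isCut_highCut (hC : IsChain (· ≤ ·) C) (e : T) : IsCut (chainK C) (highCut C e) where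
  chain := isChain_chainK hC
  bot := bot_notMem_chainK C
  sub := fun _ h => h.1
  up := fun _ hc _ hd hcd => ⟨hd, hc.2.trans_le hcd⟩

/-- The element `x` jumps at the element `e` of the chain. -/
def Jump (C : Set T) (e x : T) : Prop :=
  ¬ (Val (chainK C) (lowCut C e) x ↔ Val (chainK C) (highCut C e) x)

/-- For an element `c` of the chain, the value at a cut `U` is one iff `c ∈ U`. -/
theorem val_of_mem_chain {U : Set T} (hc : IsCut (chainK C) U) {c : T} (hcK : c ∈ chainK C) :
    Val (chainK C) U c ↔ c ∈ U := by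
  constructor
  · intro h
    by_contra hcU
    have hne : U.Nonempty := by
      obtain ⟨u, hu, -⟩ := h
      exact ⟨u, hu⟩
    obtain ⟨u, hu⟩ := hne
    have h2 : Val (chainK C) U cᶜ := by
      refine ⟨u, hu, c, Or.inr ⟨hcK, hcU⟩, ?_⟩
      rw [sdiff_eq]
      exact inf_le_right
    exact hc.not_both h h2
  · intro hcU
    exact ⟨c, hcU, ⊥, Or.inl rfl, sdiff_le⟩

theorem jump_of_mem_chain (hC : IsChain (· ≤ ·) C) {e c : T}
    (hc : c ∈ chainK C) : Jump C e c ↔ e = c := by
  unfold Jump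
  rw [val_of_mem_chain (isCut_lowCut hC e) hc, val_of_mem_chain (isCut_highCut hC e) hc]
  simp only [lowCut, highCut, Set.mem_ofPred_eq]
  constructor
  · intro h
    by_contra hne
    apply h
    constructor
    · rintro ⟨h1, h2⟩
      exact ⟨h1, lt_of_le_of_ne h2 hne⟩
    · rintro ⟨h1, h2⟩
      exact ⟨h1, h2.le⟩
  · rintro rfl h
    exact lt_irrefl _ (h.1 ⟨hc, le_rfl⟩).2

open scoped symmDiff

theorem jump_symmDiff (hC : IsChain (· ≤ ·) C) (hgen : BooleanSubalgebra.closure C = ⊤)
    {e x y : T} : Jump C e (x ∆ y) ↔ ¬ (Jump C e x ↔ Jump C e y) := by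
  unfold Jump
  rw [(isCut_lowCut hC e).val_symmDiff hgen, (isCut_highCut hC e).val_symmDiff hgen]
  tauto

theorem jump_bot (hC : IsChain (· ≤ ·) C) {e : T} : ¬ Jump C e ⊥ := by
  unfold Jump
  have h1 := (isCut_lowCut hC e).not_val_bot
  have h2 := (isCut_highCut hC e).not_val_bot
  tauto

theorem jump_union (hC : IsChain (· ≤ ·) C) (hgen : BooleanSubalgebra.closure C = ⊤)
    {e x y : T} (h : Jump C e (x ⊓ y) ∨ Jump C e (x ⊔ y)) : Jump C e x ∨ Jump C e y := by
  unfold Jump at *
  rw [(isCut_lowCut hC e).val_sup hgen, (isCut_highCut hC e).val_sup hgen,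
    (isCut_lowCut hC e).val_inf, (isCut_highCut hC e).val_inf] at h
  tauto

theorem jump_inter (hC : IsChain (· ≤ ·) C) (hgen : BooleanSubalgebra.closure C = ⊤)
    {e x y : T} (h : Jump C e (x ⊓ y) ∧ Jump C e (x ⊔ y)) : Jump C e x ∧ Jump C e y := by
  unfold Jump at *
  rw [(isCut_lowCut hC e).val_sup hgen, (isCut_highCut hC e).val_sup hgen,
    (isCut_lowCut hC e).val_inf, (isCut_highCut hC e).val_inf] at h
  tauto

/-! ### Every element is a finite Boolean-ring sum of elements of the chain -/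

/-- `Rep C D x`: `D` is a finite subset of the chain and `x` is the Boolean-ring sum of `D`. -/
def Rep (C : Set T) (D : Finset T) (x : T) : Prop :=
  (↑D : Set T) ⊆ chainK C ∧ toBoolRing x = ∑ c ∈ D, toBoolRing c

theorem rep_jump (hC : IsChain (· ≤ ·) C) (hgen : BooleanSubalgebra.closure C = ⊤)
    {D : Finset T} {x : T} (h : Rep C D x) {e : T} (he : e ∈ chainK C) :
    Jump C e x ↔ e ∈ D := by
  classical
  obtain ⟨hD, hx⟩ := h
  induction D using Finset.induction_on generalizing x with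
  | empty =>
    have : x = ⊥ := by
      rw [Finset.sum_empty] at hx
      rw [← toBoolRing_inj, hx, toBoolRing_bot]
    subst this
    simp [jump_bot hC]
  | insert c D hcD ih =>
    rw [Finset.sum_insert hcD] at hx
    have hxe : x = c ∆ ofBoolRing (∑ c ∈ D, toBoolRing c) := by
      rw [← toBoolRing_inj, hx, toBoolRing_symmDiff, toBoolRing_ofBoolRing]
    rw [Finset.coe_insert, Set.insert_subset_iff] at hD
    have ih' := ih hD.2 (x := ofBoolRing (∑ c ∈ D, toBoolRing c)) (toBoolRing_ofBoolRing _)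
    rw [hxe, jump_symmDiff hC hgen, ih', jump_of_mem_chain hC hD.1, Finset.mem_insert]
    by_cases h1 : e = c
    · subst h1
      simp [hcD]
    · simp [h1]

theorem rep_symmDiff {D E : Finset T} {x y : T} (hx : Rep C D x) (hy : Rep C E y) :
    ∃ F, Rep C F (x ∆ y) := by
  classical
  refine ⟨D ∆ E, ?_, ?_⟩
  · intro c hc
    rw [Finset.mem_coe, Finset.mem_symmDiff] at hc
    rcases hc with hc | hc
    · exact hx.1 hc.1
    · exact hy.1 hc.1
  · rw [toBoolRing_symmDiff, hx.2, hy.2]
    have h1 : D = (D \ E) ∪ (D ∩ E) := (Finset.sdiff_union_inter D E).symm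
    have h2 : E = (E \ D) ∪ (D ∩ E) := by
      rw [Finset.inter_comm]; exact (Finset.sdiff_union_inter E D).symm
    have s1 : ∑ c ∈ D, toBoolRing c = ∑ c ∈ D \ E, toBoolRing c + ∑ c ∈ D ∩ E, toBoolRing c := by
      conv_lhs => rw [h1]
      exact Finset.sum_union (Finset.disjoint_sdiff_inter D E)
    have s2 : ∑ c ∈ E, toBoolRing c = ∑ c ∈ E \ D, toBoolRing c + ∑ c ∈ D ∩ E, toBoolRing c := by
      conv_lhs => rw [h2]
      refine Finset.sum_union ?_
      rw [Finset.inter_comm]
      exact Finset.disjoint_sdiff_inter E D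
    have s3 : ∑ c ∈ D ∆ E, toBoolRing c = ∑ c ∈ D \ E, toBoolRing c + ∑ c ∈ E \ D, toBoolRing c :=
      Finset.sum_union disjoint_sdiff_sdiff
    rw [s1, s2, s3]
    have h0 := BooleanRing.add_self (∑ c ∈ D ∩ E, toBoolRing c)
    calc _ = (∑ c ∈ D \ E, toBoolRing c + ∑ c ∈ E \ D, toBoolRing c) +
          (∑ c ∈ D ∩ E, toBoolRing c + ∑ c ∈ D ∩ E, toBoolRing c) := by abel
      _ = _ := by rw [h0, add_zero]

theorem rep_single {c : T} (hc : c ∈ chainK C) : Rep C {c} c :=
  ⟨by simpa using hc, by simp⟩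

theorem rep_bot : Rep C ∅ ⊥ := ⟨by simp, by simp⟩

/-- A general meet is the sum over the products. -/
theorem rep_inf_single (hC : IsChain (· ≤ ·) C) {D : Finset T} {x c : T} (hx : Rep C D x)
    (hc : c ∈ chainK C) : ∃ F, Rep C F (x ⊓ c) := by
  classical
  induction D using Finset.induction_on generalizing x with
  | empty =>
    have : x = ⊥ := by
      have := hx.2
      rw [Finset.sum_empty] at this
      rw [← toBoolRing_inj, this, toBoolRing_bot]
    subst this
    rw [bot_inf_eq]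
    exact ⟨∅, rep_bot⟩
  | insert d D hdD ih =>
    obtain ⟨hD, hs⟩ := hx
    rw [Finset.sum_insert hdD] at hs
    rw [Finset.coe_insert, Set.insert_subset_iff] at hD
    have hxe : x = d ∆ ofBoolRing (∑ c ∈ D, toBoolRing c) := by
      rw [← toBoolRing_inj, hs, toBoolRing_symmDiff, toBoolRing_ofBoolRing]
    obtain ⟨F, hF⟩ := ih (x := ofBoolRing (∑ c ∈ D, toBoolRing c))
      ⟨hD.2, toBoolRing_ofBoolRing _⟩
    have hdc : ∃ F, Rep C F (d ⊓ c) := by
      rcases (isChain_chainK hC).total hD.1 hc with h | h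
      · rw [inf_eq_left.2 h]; exact ⟨_, rep_single hD.1⟩
      · rw [inf_eq_right.2 h]; exact ⟨_, rep_single hc⟩
    obtain ⟨G, hG⟩ := hdc
    have he : x ⊓ c = (d ⊓ c) ∆ (ofBoolRing (∑ c ∈ D, toBoolRing c) ⊓ c) := by
      rw [hxe, inf_symmDiff_distrib_right]
    rw [he]
    exact rep_symmDiff hG hF

theorem rep_inf (hC : IsChain (· ≤ ·) C) {D E : Finset T} {x y : T} (hx : Rep C D x)
    (hy : Rep C E y) : ∃ F, Rep C F (x ⊓ y) := by
  classical
  induction E using Finset.induction_on generalizing y with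
  | empty =>
    have : y = ⊥ := by
      have := hy.2
      rw [Finset.sum_empty] at this
      rw [← toBoolRing_inj, this, toBoolRing_bot]
    subst this
    rw [inf_bot_eq]
    exact ⟨∅, rep_bot⟩
  | insert d E hdE ih =>
    obtain ⟨hE, hs⟩ := hy
    rw [Finset.sum_insert hdE] at hs
    rw [Finset.coe_insert, Set.insert_subset_iff] at hE
    have hye : y = d ∆ ofBoolRing (∑ c ∈ E, toBoolRing c) := by
      rw [← toBoolRing_inj, hs, toBoolRing_symmDiff, toBoolRing_ofBoolRing]
    obtain ⟨F, hF⟩ := ih (y := ofBoolRing (∑ c ∈ E, toBoolRing c))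
      ⟨hE.2, toBoolRing_ofBoolRing _⟩
    obtain ⟨G, hG⟩ := rep_inf_single hC hx hE.1
    have he : x ⊓ y = (x ⊓ d) ∆ (x ⊓ ofBoolRing (∑ c ∈ E, toBoolRing c)) := by
      rw [hye, inf_symmDiff_distrib_left]
    rw [he]
    exact rep_symmDiff hG hF

theorem exists_rep (hC : IsChain (· ≤ ·) C) (hgen : BooleanSubalgebra.closure C = ⊤) (x : T) :
    ∃ D, Rep C D x := by
  classical
  have htop : ∃ D, Rep C D ⊤ := by
    by_cases h : (⊤ : T) = ⊥
    · rw [h]; exact ⟨∅, rep_bot⟩
    · exact ⟨{⊤}, rep_single ⟨Or.inl rfl, h⟩⟩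
  have hx : x ∈ BooleanSubalgebra.closure C := by rw [hgen]; exact BooleanSubalgebra.mem_top
  induction hx using BooleanSubalgebra.closure_bot_sup_induction with
  | mem c hcC =>
    by_cases hb : c = ⊥
    · rw [hb]; exact ⟨∅, rep_bot⟩
    · exact ⟨{c}, rep_single ⟨Or.inr hcC, hb⟩⟩
  | bot => exact ⟨∅, rep_bot⟩
  | sup x hx y hy ihx ihy =>
    obtain ⟨D, hD⟩ := ihx
    obtain ⟨E, hE⟩ := ihy
    obtain ⟨F, hF⟩ := rep_inf hC hD hE
    obtain ⟨G, hG⟩ := rep_symmDiff hD hE
    obtain ⟨H, hH⟩ := rep_symmDiff hG hF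
    refine ⟨H, ?_⟩
    rwa [symmDiff_symmDiff_inf] at hH
  | compl x hx ih =>
    obtain ⟨D, hD⟩ := ih
    obtain ⟨E, hE⟩ := htop
    obtain ⟨F, hF⟩ := rep_symmDiff hE hD
    refine ⟨F, ?_⟩
    rwa [top_symmDiff] at hF

end Jumps

/-- **Main theorem.** Every Boolean algebra `T` (of any cardinality) that is generated by a chain
`C` has the monotone selection property. -/
theorem result (T : Type u) [BooleanAlgebra T] (C : Set T) (hC : IsChain (· ≤ ·) C)
    (hgen : BooleanSubalgebra.closure C = ⊤) : MonotoneSelection T := by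
  classical
  obtain ⟨rk⟩ := nonempty_embedding_to_cardinal (α := T)
  choose D hD using exists_rep hC hgen
  have hmem : ∀ x e, e ∈ D x ↔ e ∈ chainK C ∧ Jump C e x := by
    intro x e
    constructor
    · intro h
      have he : e ∈ chainK C := (hD x).1 h
      exact ⟨he, (rep_jump hC hgen (hD x) he).2 h⟩
    · rintro ⟨he, h⟩
      exact (rep_jump hC hgen (hD x) he).1 h
  let f : Finset T → (Cardinal.{u} →₀ ℕ) := fun A => ∑ e ∈ A, Finsupp.single (rk e) 1
  have hf : ∀ (A : Finset T) (e : T), f A (rk e) = if e ∈ A then 1 else 0 := by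
    intro A e
    simp only [f, Finsupp.finsetSum_apply, Finsupp.single_apply, rk.injective.eq_iff]
    rw [Finset.sum_ite_eq']
  let ψ : T → Colex (Cardinal.{u} →₀ ℕ) := fun x => toColex (f (D x))
  refine monotoneSelection_of_submodular ψ ?_ ?_
  · intro x y hxy
    have h1 : f (D x) = f (D y) := toColex.injective hxy
    have h2 : D x = D y := by
      ext e
      have h3 := congrArg (fun g => g (rk e)) h1
      simp only [hf] at h3
      by_cases ha : e ∈ D x <;> by_cases hb : e ∈ D y <;> simp_all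
    rw [← toBoolRing_inj, (hD x).2, (hD y).2, h2]
  · intro x y
    have h1 : D (x ⊓ y) ∪ D (x ⊔ y) ⊆ D x ∪ D y := by
      intro e he
      rw [Finset.mem_union, hmem, hmem] at he
      rw [Finset.mem_union, hmem, hmem]
      have heK : e ∈ chainK C := by
        rcases he with he | he <;> exact he.1
      have := jump_union (x := x) (y := y) (e := e) hC hgen (he.imp And.right And.right)
      exact this.imp (fun h => ⟨heK, h⟩) (fun h => ⟨heK, h⟩)
    have h2 : D (x ⊓ y) ∩ D (x ⊔ y) ⊆ D x ∩ D y := by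
      intro e he
      rw [Finset.mem_inter, hmem, hmem] at he
      rw [Finset.mem_inter, hmem, hmem]
      have := jump_inter (x := x) (y := y) (e := e) hC hgen ⟨he.1.2, he.2.2⟩
      exact ⟨⟨he.1.1, this.1⟩, ⟨he.1.1, this.2⟩⟩
    have h3 : f (D (x ⊓ y)) + f (D (x ⊔ y)) ≤ f (D x) + f (D y) := by
      simp only [f]
      rw [← Finset.sum_union_inter, ← Finset.sum_union_inter (s₁ := D x)]
      exact add_le_add (Finset.sum_le_sum_of_subset h1) (Finset.sum_le_sum_of_subset h2)
    exact Finsupp.toColex_monotone h3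

end Pool.Agent.Results.MP_9a43b6_co.ChainGenerated
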